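import Mathlib
import Pool.Agent.Helper669.Card

/-!
# A continuum-Luzin set with cov(M) = ℵ₁ and a singular continuum, e.g. 𝔠 = ℵ_{ω₁}

The forcing notion is the finite support iteration of eventually different forcing, of length
the singular cardinal `κ` of cofinality `ℵ₁`.
-/

namespace Pool.Agent.Results.MP_35f06d_lc.LuzinCov

open Cardinal Ordinal Pool.Agent.Helper669.Forcing

/-- Every condition of the forcing notion `P` forces: all uncountable cardinals of the ground
model are cardinals, the continuum is `κ`, cov(M) = `ℵ₁`, and there is a set of `κ` many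
elements of the Baire space meeting every meager set in fewer than `κ` points. -/
def ForcesLuzinCov (P : Type) [Preorder P] (κ : Cardinal.{0}) : Prop :=
  Nonempty P ∧ ∀ p : P, p ∈ CardinalsPreserved.{0, 0} P ∧ p ∈ ContinuumIs P κ ∧
    p ∈ CovIs P (ℵ₁ : Cardinal.{0}) ∧ p ∈ HasLuzinSet P κ

open Pool.Agent.Helper669.Base Pool.Agent.Helper669.Main Pool.Agent.Helper669.Card in
theorem main (κ : Cardinal.{0}) (hcof : κ.ord.cof = ℵ₁) (hpow : κ ^ ℵ₀ = κ) :
    ∃ (P : Type) (_ : Preorder P), ForcesLuzinCov P κ := by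
  obtain ⟨J, _, _, hJ, hIio, hb, g, hg⟩ := exists_order hcof
  have hκ := aleph0_lt_of_cof hcof
  refine ⟨Cond J, inferInstance, inferInstance, fun p => ⟨cardinalsPreserved p,
    ⟨continuumLe hJ hκ hpow p, fun μ hμ => ?_⟩, ⟨covLe hb g hg p, fun μ hμ => ?_⟩,
    hasLuzinSet hJ hκ hIio hb p⟩⟩
  · exact not_continuumLe hJ hκ (by rw [mk_out]; exact hμ) p
  · refine not_covLe hb ?_ p
    rw [← mk_le_aleph0_iff, mk_out]
    have h1 : (ℵ₁ : Cardinal.{0}) = Order.succ ℵ₀ := succ_aleph0.symm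
    rw [h1] at hμ
    exact Order.lt_succ_iff.1 hμ

/-- In every ground model, for every cardinal `κ` of cofinality `ℵ₁` with `κ ^ ℵ₀ = κ`, there is
a forcing notion as required; under GCH this applies to `ℵ_{ω₁}`; and it always applies to
`ℶ_{ω₁}`. -/
theorem result :
    (∀ κ : Cardinal.{0}, κ.ord.cof = ℵ₁ → κ ^ ℵ₀ = κ →
      ∃ (P : Type) (_ : Preorder P), ForcesLuzinCov P κ) ∧
    ((∀ μ : Cardinal.{0}, ℵ₀ ≤ μ → 2 ^ μ = Order.succ μ) →
      ∃ (P : Type) (_ : Preorder P), ForcesLuzinCov P (ℵ_ ω₁)) ∧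
    ∃ (P : Type) (_ : Preorder P), ForcesLuzinCov P (ℶ_ ω₁) := by
  refine ⟨main, fun h => ?_, ?_⟩
  · exact main _ Pool.Agent.Helper669.Card.cof_aleph
      (Pool.Agent.Helper669.Card.pow_aleph0_eq (Pool.Agent.Helper669.Card.strongLimit_aleph h)
        Pool.Agent.Helper669.Card.cof_aleph)
  · exact main _ Pool.Agent.Helper669.Card.cof_beth
      (Pool.Agent.Helper669.Card.pow_aleph0_eq
        (isStrongLimit_beth.2 (isSuccLimit_omega 1).isSuccPrelimit)
        Pool.Agent.Helper669.Card.cof_beth)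

end Pool.Agent.Results.MP_35f06d_lc.LuzinCov
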