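import Mathlib
import Pool.Agent.Helper669.Card
import Pool.Agent.Helper669.Surj

/-!
# A continuum-Luzin set with cov(M) = ℵ₁ < 𝔠 = ℵ_{ω₁}, over an arbitrary ground model

The forcing notion is the product of two forcing notions. The first one is a full support product
of `ω₁` many collapses, which makes the strong limit cardinal `κ = L ω₁` of the ground model the
cardinal `ℵ_{ω₁}` of the extension; the second one is the finite support iteration of eventually
different forcing of length `κ`. No assumption on the ground model is used.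
-/

namespace Pool.Agent.Results.MP_35f06d_lc.Unconditional

open Cardinal Ordinal Pool.Agent.Helper669.Forcing

/-- The cardinal `ν` of the ground model is a cardinal of the extension: no smaller cardinal `μ`
is mapped onto it. -/
def StaysCardinal (P : Type) [Preorder P] (ν : Cardinal.{0}) : Set P :=
  fall fun μ : Cardinal.{0} => fall fun _ : μ < ν =>
    fnot (fex fun R : μ.out → ν.out → Set P => fand (IsFun R) (IsOnto R))

/-- It is forced that `κ` is the cardinal `ℵ_{ω₁}` of the extension: the infinite cardinals of the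
extension which are at most `κ` are exactly the members of an increasing sequence
`(L α : α ≤ ω₁)`, where `L 0 = ℵ₀`, `L 1 = ℵ₁` (so that `ω₁` is preserved) and `L ω₁ = κ`. -/
def ForcesAlephOmegaOne (P : Type) [Preorder P] (κ : Cardinal.{0}) : Prop :=
  ∃ L : Ordinal.{0} → Cardinal.{0}, StrictMono L ∧ L 0 = ℵ₀ ∧ L 1 = ℵ₁ ∧ L ω₁ = κ ∧
    (∀ α ≤ ω₁, ∀ p : P, p ∈ StaysCardinal P (L α)) ∧
    ∀ ν : Cardinal.{0}, ℵ₀ ≤ ν → ν ≤ κ → (∀ α ≤ ω₁, L α ≠ ν) →
      ∀ p : P, p ∈ fnot (StaysCardinal P ν)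

open Pool.Agent.Helper669.Base Pool.Agent.Helper669.Card Pool.Agent.Helper669.Lift
  Pool.Agent.Helper669.Seq Pool.Agent.Helper669.Coll Pool.Agent.Helper669.Surj in
/-- There is a forcing notion `P`, all of whose conditions force that
`cov(M) = ℵ₁ < 𝔠 = ℵ_{ω₁}` and that there is a `𝔠`-Luzin set. -/
theorem result : ∃ (P : Type) (_ : Preorder P) (κ : Cardinal.{0}),
    Nonempty P ∧ ForcesAlephOmegaOne P κ ∧
      ∀ p : P, p ∈ CovIs P (ℵ₁ : Cardinal.{0}) ∧ p ∈ ContinuumIs P κ ∧ p ∈ HasLuzinSet P κ := by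
  obtain ⟨J, _, _, hJ, hIio, hb, g, hg⟩ := exists_order cof_L
  have hκ := aleph0_lt_of_cof cof_L
  have hpow : (L ω₁) ^ ℵ₀ = L ω₁ := pow_aleph0_eq isStrongLimit_L cof_L
  have hac : AC (Cond J) := cond_ac
  have hno : ∀ Z X : Type, #Z < L ω₁ → #X = L ω₁ → NoOnto (QQ × Cond J) Z X :=
    fun Z X hZ hX => noOnto_L hac le_rfl hZ hX
  refine ⟨QQ × Cond J, inferInstance, L ω₁, ?_, ⟨L, L_strictMono, L_zero, L_one, rfl, ?_, ?_⟩, ?_⟩
  · obtain ⟨t, _⟩ := pi_closed (fun α : Ix => α) ∅ (fun s hs => absurd hs (by simp)) fun α => by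
      rw [Cardinal.mk_eq_zero]; exact aleph0_pos.trans (th_unc α)
    exact ⟨(t, Classical.arbitrary (Cond J))⟩
  · intro α hα p μ hμ
    exact not_onto (noOnto_L hac hα (by rw [mk_out]; exact hμ) (mk_out _)) p
  · intro ν h0 h1 hne p q _ hq
    obtain ⟨μ, hμ, h⟩ := onto_of_ne (P := Cond J) h0 h1 hne
    exact hq μ hμ q le_rfl (h q)
  · intro p
    refine ⟨⟨covLe' sc_QQ hb g hg p, fun μ hμ => ?_⟩,
      ⟨continuumLe' sc_QQ hJ hκ hpow p, fun μ hμ => ?_⟩, hasLuzinSet' sc_QQ hJ hIio hno hb p⟩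
    · refine not_covLe' sc_QQ hb ?_ p
      rw [← mk_le_aleph0_iff, mk_out]
      have h1 : (ℵ₁ : Cardinal.{0}) = Order.succ ℵ₀ := succ_aleph0.symm
      rw [h1] at hμ
      exact Order.lt_succ_iff.1 hμ
    · exact not_continuumLe' hJ hno (by rw [mk_out]; exact hμ) p

end Pool.Agent.Results.MP_35f06d_lc.Unconditional
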